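import Pool.Agent.H10.FEW.Stmts

/-!
# FEW, row FCD: number of tuples of primes with a fixed code
-/

set_option autoImplicit false

namespace Pool.FEW

open Finset Pool.Agent.H98.ABCR Pool.SHA

/-- the unit of `u` modulo `l`, one if `u` is not prime to `l` -/
noncomputable def fcdU (l u : ℕ) : (ZMod l)ˣ :=
  if h : u.Coprime l then ZMod.unitOfCoprime u h else 1

theorem fcdU_one (l : ℕ) : fcdU l 1 = 1 := by
  have h : (1 : ℕ).Coprime l := Nat.coprime_one_left l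
  rw [fcdU, dif_pos h]
  ext
  simp

theorem fcdU_val {l u : ℕ} (h : u.Coprime l) : ((fcdU l u : (ZMod l)ˣ) : ZMod l) = (u : ZMod l) := by
  rw [fcdU, dif_pos h]
  simp

/-- the product of the unit groups -/
abbrev fcdG (M : Finset ℕ) : Type := (l : {l // l ∈ M}) → (ZMod l.1)ˣ

/-- the map of one factor -/
noncomputable def fcdF (M : Finset ℕ) (e r u : ℕ) : fcdG M :=
  fun l => fcdU l.1 u ^ (r * ((l.1 - 1) / e))

theorem fcdF_one (M : Finset ℕ) (e r : ℕ) : fcdF M e r 1 = 1 := by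
  funext l
  simp [fcdF, fcdU_one]

theorem fcd_val {M : Finset ℕ} {ι : Type} (s : Finset ι) (F : ι → fcdG M) (l : {l // l ∈ M}) :
    (((∏ j ∈ s, F j) l : (ZMod l.1)ˣ) : ZMod l.1) = ∏ j ∈ s, ((F j l : (ZMod l.1)ˣ) : ZMod l.1) := by
  rw [Finset.prod_apply, Units.coe_prod]

theorem fcd_cop {l u : ℕ} (hl : l.Prime) (h : ¬ l ∣ u) : u.Coprime l :=
  ((Nat.Prime.coprime_iff_not_dvd hl).2 h).symm

theorem fcd_finite {M : Finset ℕ} (hM : ∀ l ∈ M, l.Prime) : Finite (fcdG M) := by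
  have _ : ∀ l : {l // l ∈ M}, Fact (l.1.Prime) := fun l => ⟨hM l.1 l.2⟩
  infer_instance

theorem fcd_one_le_prod {ι : Type} (s : Finset ι) (F : ι → ℝ) (h : ∀ i ∈ s, 1 ≤ F i) :
    1 ≤ ∏ i ∈ s, F i := by
  calc (1 : ℝ) = ∏ _i ∈ s, (1 : ℝ) := by simp
    _ ≤ ∏ i ∈ s, F i := Finset.prod_le_prod (fun _ _ => zero_le_one) h

theorem fcd_prod_filter_le {ι : Type} (s : Finset ι) (F : ι → ℝ) (h : ∀ i ∈ s, 1 ≤ F i)
    (q : ι → Prop) [DecidablePred q] : ∏ i ∈ s.filter q, F i ≤ ∏ i ∈ s, F i := by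
  rw [← Finset.prod_filter_mul_prod_filter_not s q]
  have h1 := fcd_one_le_prod (s.filter q) F (fun i hi => h i (Finset.mem_filter.1 hi).1)
  have h2 := fcd_one_le_prod (s.filter (fun i => ¬ q i)) F
    (fun i hi => h i (Finset.mem_filter.1 hi).1)
  nlinarith

theorem fcd_energy (hEN : S_EN) (hMOM : S_MOM) {k e : ℕ} {M : Finset ℕ} {tt : Fin k → Fin 3}
    {r P : Fin k → ℕ} {U : Fin k → Finset ℕ} {J : Finset (Fin k)} {g Φ X : ℝ} (he : 0 < e)
    (hM : ∀ l ∈ M, l.Prime ∧ e ∣ l - 1) (hg : 1 ≤ g) (hΦ : 1 ≤ Φ)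
    (hJ0 : ∀ j, j ∉ J → (U j).card ≤ 1)
    (hJ1 : ∀ j ∈ J, 2 ≤ P j ∧ ∀ q ∈ U j, q.Prime ∧ P j ≤ q ∧ q < 2 * P j)
    (hU : ∀ j, ∀ q ∈ U j, ∀ l ∈ M, ¬ l ∣ q) (hgcd : ∀ j ∈ J, (Nat.gcd (r j) e : ℝ) ≤ g)
    (hX : ∏ j ∈ J, (P j : ℝ) ≤ X)
    (ht : ∀ j ∈ J, ∀ t : ℕ, 1 ≤ t → (P j : ℝ) ^ (t - 1) < X →
      (2 * (P j : ℝ)) ^ t ≤ ∏ l ∈ M, (l : ℝ) ∧ (t.factorial : ℝ) ≤ Φ) (i : Fin 3) :
    (((Fintype.piFinset (fun j => if tt j = i then U j else {1}) ×ˢ
      Fintype.piFinset (fun j => if tt j = i then U j else {1})).filter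
      (fun w => ∏ j, fcdF M e (r j) (w.1 j) = ∏ j, fcdF M e (r j) (w.2 j))).card : ℝ) ≤
      2 * (2 * (∏ l ∈ M, (((l - 1) / e : ℕ) : ℝ)) * g ^ M.card * Φ) *
        ∏ j ∈ J.filter (fun j => tt j = i), (P j : ℝ) := by
  have _ := fcd_finite (fun l hl => (hM l hl).1)
  let _ : Fintype (fcdG M) := Fintype.ofFinite _
  have hs1 : ∀ l ∈ M, 1 ≤ (l - 1) / e := by
    intro l hl
    obtain ⟨hp, hd⟩ := hM l hl
    have h1 : 0 < l - 1 := by have := hp.two_le; omega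
    exact Nat.div_pos (Nat.le_of_dvd h1 hd) he
  have hD1 : (1 : ℝ) ≤ ∏ l ∈ M, (((l - 1) / e : ℕ) : ℝ) := by
    refine fcd_one_le_prod _ _ ?_
    intro l hl
    exact_mod_cast hs1 l hl
  have hgM : (1 : ℝ) ≤ g ^ M.card := one_le_pow₀ hg
  refine hEN (Fin k) (fcdG M) (fun j => if tt j = i then U j else {1})
    (fun j u => fcdF M e (r j) u) (J.filter (fun j => tt j = i)) (fun j => (P j : ℝ))
    (2 * (∏ l ∈ M, (((l - 1) / e : ℕ) : ℝ)) * g ^ M.card * Φ) ?_ ?_ ?_ ?_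
  · nlinarith [mul_le_mul hD1 hgM zero_le_one (by linarith), 
      mul_le_mul (mul_le_mul hD1 hgM zero_le_one (by linarith)) hΦ zero_le_one (by positivity)]
  · intro j hj
    by_cases h : tt j = i
    · simp only [h, if_true]
      apply hJ0
      intro hj'
      exact hj (Finset.mem_filter.2 ⟨hj', h⟩)
    · simp [h]
  · intro j hj
    have := (hJ1 j (Finset.mem_filter.1 hj).1).1
    exact_mod_cast this
  · intro j hj t ht1 hlt
    obtain ⟨hjJ, hji⟩ := Finset.mem_filter.1 hj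
    simp only [hji, if_true]
    have hPJ : ∏ j ∈ J.filter (fun j => tt j = i), (P j : ℝ) ≤ ∏ j ∈ J, (P j : ℝ) := by
      refine fcd_prod_filter_le _ _ ?_ _
      intro a ha
      have := (hJ1 a ha).1
      have h2 : (1 : ℕ) ≤ P a := by omega
      exact_mod_cast h2
    obtain ⟨h1, h2⟩ := ht j hjJ t ht1 (lt_of_lt_of_le hlt (hPJ.trans hX))
    have h1' : (((2 * P j) ^ t : ℕ) : ℝ) ≤ ((∏ l ∈ M, l : ℕ) : ℝ) := by
      push_cast
      exact h1
    have hMOM' := hMOM e (r j) (P j) t M (U j) he hM (fun q hq => ⟨((hJ1 j hjJ).2 q hq).1,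
      ((hJ1 j hjJ).2 q hq).2.2⟩) (hU j) (Nat.cast_le.1 h1')
    refine le_trans ?_ (hMOM'.trans ?_)
    · refine Nat.cast_le.2 (Finset.card_le_card ?_)
      intro w hw
      rw [Finset.mem_filter] at hw ⊢
      refine ⟨hw.1, ?_⟩
      intro l hl
      have hwl := congrArg (fun z : fcdG M => ((z ⟨l, hl⟩ : (ZMod l)ˣ) : ZMod l)) hw.2
      simp only [fcd_val] at hwl
      have hcop : ∀ w' ∈ Fintype.piFinset (fun _ : Fin t => U j), ∀ a : Fin t,
          ((fcdF M e (r j) (w' a) ⟨l, hl⟩ : (ZMod l)ˣ) : ZMod l) =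
            ((w' a : ℕ) : ZMod l) ^ (r j * ((l - 1) / e)) := by
        intro w' hw' a
        have ha := Fintype.mem_piFinset.1 hw' a
        have hc := fcd_cop (hM l hl).1 (hU j _ ha l hl)
        simp only [fcdF, Units.val_pow_eq_pow_val, fcdU_val hc]
      obtain ⟨hw1, hw2⟩ := Finset.mem_product.1 hw.1
      rw [Finset.prod_congr rfl (fun a _ => hcop w.1 hw1 a),
        Finset.prod_congr rfl (fun a _ => hcop w.2 hw2 a), Finset.prod_pow, Finset.prod_pow] at hwl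
      rw [← ZMod.natCast_eq_natCast_iff]
      push_cast
      exact hwl
    · have hUc : ((U j).card : ℝ) ≤ P j := by
        have : U j ⊆ Finset.Ico (P j) (2 * P j) := by
          intro q hq
          have := ((hJ1 j hjJ).2 q hq).2
          exact Finset.mem_Ico.2 this
        have h3 := Finset.card_le_card this
        rw [Nat.card_Ico] at h3
        have h4 : (U j).card ≤ P j := by omega
        exact_mod_cast h4
      have hprod : ∏ l ∈ M, ((((l - 1) / e : ℕ) : ℝ) * (Nat.gcd (r j) e : ℝ)) ≤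
          (∏ l ∈ M, (((l - 1) / e : ℕ) : ℝ)) * g ^ M.card := by
        rw [Finset.prod_mul_distrib, Finset.prod_const]
        refine mul_le_mul_of_nonneg_left ?_ (by linarith)
        exact pow_le_pow_left₀ (by positivity) (hgcd j hjJ) _
      have hP0 : (0 : ℝ) ≤ (P j : ℝ) := Nat.cast_nonneg _
      calc 2 * (∏ l ∈ M, ((((l - 1) / e : ℕ) : ℝ) * (Nat.gcd (r j) e : ℝ))) * ((U j).card : ℝ) ^ t *
            t.factorial ≤ 2 * ((∏ l ∈ M, (((l - 1) / e : ℕ) : ℝ)) * g ^ M.card) * (P j : ℝ) ^ t * Φ := by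
            gcongr
        _ = 2 * (∏ l ∈ M, (((l - 1) / e : ℕ) : ℝ)) * g ^ M.card * Φ * (P j : ℝ) ^ t := by ring

/-- the coordinates of colour `i`, the others replaced by one -/
def fcdR {k : ℕ} (tt : Fin k → Fin 3) (i : Fin 3) (p : Fin k → ℕ) : Fin k → ℕ :=
  fun j => if tt j = i then p j else 1

/-- the image of a vector in the group -/
noncomputable def fcdV {k : ℕ} (M : Finset ℕ) (e : ℕ) (r : Fin k → ℕ) (p : Fin k → ℕ) : fcdG M :=
  ∏ j, fcdF M e (r j) (p j)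

theorem fcd_Rval {k e : ℕ} {M : Finset ℕ} {tt : Fin k → Fin 3} {r : Fin k → ℕ} {p : Fin k → ℕ}
    {l : ℕ} (hl : l ∈ M) (hlp : l.Prime) (hp : ∀ j, ¬ l ∣ p j) (i : Fin 3) :
    ((fcdV M e r (fcdR tt i p) ⟨l, hl⟩ : (ZMod l)ˣ) : ZMod l) =
      (∏ j ∈ univ.filter (fun j => tt j = i), (p j : ZMod l) ^ r j) ^ ((l - 1) / e) := by
  rw [fcdV, fcd_val, ← Finset.prod_pow, Finset.prod_filter]
  refine Finset.prod_congr rfl ?_
  intro j _
  by_cases h : tt j = i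
  · rw [if_pos h, fcdR, if_pos h, fcdF]
    simp only [Units.val_pow_eq_pow_val, fcdU_val (fcd_cop hlp (hp j)), pow_mul]
  · rw [if_neg h, fcdR, if_neg h, fcdF_one]
    simp

theorem fcd_pow {l e x r : ℕ} (hl : l.Prime) (hd : e ∣ l - 1) (hx : x % e = r % e)
    {u : ZMod l} (hu : u ≠ 0) : u ^ (x * ((l - 1) / e)) = u ^ (r * ((l - 1) / e)) := by
  have _ : Fact l.Prime := ⟨hl⟩
  have h1 : x * ((l - 1) / e) ≡ r * ((l - 1) / e) [MOD (l - 1)] := by
    have h2 : x ≡ r [MOD e] := hx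
    have h3 := Nat.ModEq.mul_right' ((l - 1) / e) h2
    rwa [Nat.mul_div_cancel' hd] at h3
  exact pow_eq_pow_of_modEq h1 (ZMod.pow_card_sub_one_eq_one hu)

theorem fcd_rel {k e : ℕ} {tt : Fin k → Fin 3} {r x p : Fin k → ℕ}
    {l : ℕ} (hlp : l.Prime) (hd : e ∣ l - 1) (hp : ∀ j, ¬ l ∣ p j)
    (hx : ∀ j, x j % e = r j % e)
    (hsum : ∏ j ∈ univ.filter (fun j => tt j = 0), p j ^ x j +
      ∏ j ∈ univ.filter (fun j => tt j = 1), p j ^ x j =
      ∏ j ∈ univ.filter (fun j => tt j = 2), p j ^ x j) :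
    ∃ z : Fin 3 → ZMod l, (∀ i, z i ^ ((l - 1) / e) = 1) ∧
      ∑ i, (![1, 1, -1] : Fin 3 → ZMod l) i * z i *
        ∏ j ∈ univ.filter (fun j => tt j = i), (p j : ZMod l) ^ r j = 0 := by
  have _ : Fact l.Prime := ⟨hlp⟩
  have hp0 : ∀ j, (p j : ZMod l) ≠ 0 := by
    intro j h
    exact hp j ((ZMod.natCast_eq_zero_iff _ _).1 h)
  have ha0 : ∀ i : Fin 3, ∏ j ∈ univ.filter (fun j => tt j = i), (p j : ZMod l) ^ r j ≠ 0 := by
    intro i
    exact Finset.prod_ne_zero_iff.2 (fun j _ => pow_ne_zero _ (hp0 j))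
  refine ⟨fun i => (∏ j ∈ univ.filter (fun j => tt j = i), (p j : ZMod l) ^ x j) /
    ∏ j ∈ univ.filter (fun j => tt j = i), (p j : ZMod l) ^ r j, ?_, ?_⟩
  · intro i
    rw [div_pow, div_eq_one_iff_eq (pow_ne_zero _ (ha0 i)), ← Finset.prod_pow, ← Finset.prod_pow]
    refine Finset.prod_congr rfl ?_
    intro j _
    rw [← pow_mul, ← pow_mul]
    exact fcd_pow hlp hd (hx j) (hp0 j)
  · have h := congrArg (fun n : ℕ => (n : ZMod l)) hsum
    simp only [Nat.cast_add, Nat.cast_prod, Nat.cast_pow] at h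
    simp only [Fin.sum_univ_three, Matrix.cons_val_zero, Matrix.cons_val_one, Matrix.cons_val,
      mul_assoc, div_mul_cancel₀ _ (ha0 _)]
    rw [← h]
    ring

theorem fcd_sum3 {A : Type} [AddCommGroup A] (F : Fin 3 → A) (i0 i1 i2 : Fin 3) (h01 : i0 ≠ i1)
    (h02 : i0 ≠ i2) (h12 : i1 ≠ i2) : ∑ i, F i = F i0 + F i1 + F i2 := by
  rw [Fin.sum_univ_three]
  fin_cases i0 <;> fin_cases i1 <;> fin_cases i2 <;> simp_all <;> abel

theorem fcd_cover (i0 i1 i2 a : Fin 3) (h01 : i0 ≠ i1) (h02 : i0 ≠ i2) (h12 : i1 ≠ i2) :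
    a = i0 ∨ a = i1 ∨ a = i2 := by
  revert i0 i1 i2 a
  decide

open Classical in
/-- the image of one class when the value of the other is given -/
theorem fcd_img (hRLC : S_RLC) {k e : ℕ} {M : Finset ℕ} {tt : Fin k → Fin 3}
    {r : Fin k → ℕ} {F : Finset (Fin k → ℕ)} {i0 i1 i2 : Fin 3} (h01 : i0 ≠ i1)
    (h02 : i0 ≠ i2) (h12 : i1 ≠ i2) (he : 0 < e)
    (hM : ∀ l ∈ M, l.Prime ∧ e ∣ l - 1)
    (hF : ∀ p ∈ F, ∀ j, ∀ l ∈ M, ¬ l ∣ p j)
    (hT : ∀ p ∈ F, ∃ x : Fin k → ℕ, (∀ j, x j % e = r j % e) ∧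
      ∏ j ∈ univ.filter (fun j => tt j = 0), p j ^ x j +
      ∏ j ∈ univ.filter (fun j => tt j = 1), p j ^ x j =
      ∏ j ∈ univ.filter (fun j => tt j = 2), p j ^ x j)
    (p0 : Fin k → ℕ) (hp0 : ∀ p ∈ F, fcdR tt i0 p = p0) (β : fcdG M) :
    ((F.filter (fun p => fcdV M e r (fcdR tt i1 p) = β)).image
      (fun p => fcdV M e r (fcdR tt i2 p))).card ≤ ∏ l ∈ M, (l - 1) / e := by
  rcases F.eq_empty_or_nonempty with hFe | ⟨p1, hp1⟩
  · subst hFe
    simp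
  have hfact : ∀ l : {l // l ∈ M}, Fact (l.1.Prime) := fun l => ⟨(hM l.1 l.2).1⟩
  let a0 : (l : {l // l ∈ M}) → ZMod l.1 := fun l =>
    ∏ j ∈ univ.filter (fun j => tt j = i0), (p1 j : ZMod l.1) ^ r j
  let S : (l : {l // l ∈ M}) → Finset (ZMod l.1) := fun l =>
    (univ : Finset (ZMod l.1)).filter (fun b2 => ∃ z0 z1 z2 a1 a2 : ZMod l.1,
      z0 ^ ((l.1 - 1) / e) = 1 ∧ z1 ^ ((l.1 - 1) / e) = 1 ∧
      z2 ^ ((l.1 - 1) / e) = 1 ∧ a1 ^ ((l.1 - 1) / e) = ((β l : (ZMod l.1)ˣ) : ZMod l.1) ∧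
      a2 ^ ((l.1 - 1) / e) = b2 ∧
      (![1, 1, -1] : Fin 3 → ZMod l.1) i0 * z0 * a0 l +
        (![1, 1, -1] : Fin 3 → ZMod l.1) i1 * z1 * a1 +
        (![1, 1, -1] : Fin 3 → ZMod l.1) i2 * z2 * a2 = 0)
  have hε : ∀ (l : {l // l ∈ M}) (i : Fin 3), (![1, 1, -1] : Fin 3 → ZMod l.1) i ≠ 0 := by
    intro l i
    fin_cases i <;> simp
  have hS : ∀ l, (S l).card ≤ (l.1 - 1) / e := by
    intro l
    have hs : 0 < (l.1 - 1) / e := by
      obtain ⟨hp, hd⟩ := hM l.1 l.2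
      have h1 : 0 < l.1 - 1 := by have := hp.two_le; omega
      exact Nat.div_pos (Nat.le_of_dvd h1 hd) he
    refine hRLC l.1 ((l.1 - 1) / e) _ _ _ _ _ hs (hε l i0) (hε l i1) (hε l i2) ?_ (Units.ne_zero _)
    refine Finset.prod_ne_zero_iff.2 (fun j _ => pow_ne_zero _ ?_)
    intro h
    exact hF p1 hp1 j l.1 l.2 ((ZMod.natCast_eq_zero_iff _ _).1 h)
  have hcard : (Fintype.piFinset S).card ≤ ∏ l ∈ M, (l - 1) / e := by
    rw [Fintype.card_piFinset, ← Finset.prod_coe_sort M]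
    exact Finset.prod_le_prod' (fun l _ => hS l)
  refine le_trans (Finset.card_le_card_of_injOn
    (fun b : fcdG M => fun l => ((b l : (ZMod l.1)ˣ) : ZMod l.1)) ?_ ?_) hcard
  · intro b hb
    obtain ⟨p, hp, rfl⟩ := Finset.mem_image.1 hb
    obtain ⟨hpF, hpβ⟩ := Finset.mem_filter.1 hp
    obtain ⟨x, hx, hsum⟩ := hT p hpF
    refine Finset.mem_coe.2 (Fintype.mem_piFinset.2 ?_)
    intro l
    obtain ⟨z, hz, hrel⟩ := fcd_rel (hM l.1 l.2).1 (hM l.1 l.2).2 (fun j => hF p hpF j l.1 l.2) hx hsum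
    rw [fcd_sum3 _ i0 i1 i2 h01 h02 h12] at hrel
    have ha0 : a0 l = ∏ j ∈ univ.filter (fun j => tt j = i0), (p j : ZMod l.1) ^ r j := by
      refine Finset.prod_congr rfl ?_
      intro j hj
      have hj' := (Finset.mem_filter.1 hj).2
      have h1 := congrFun (hp0 p1 hp1) j
      have h2 := congrFun (hp0 p hpF) j
      rw [fcdR, if_pos hj'] at h1 h2
      rw [h1, h2]
    refine Finset.mem_filter.2 ⟨Finset.mem_univ _, z i0, z i1, z i2,
      ∏ j ∈ univ.filter (fun j => tt j = i1), (p j : ZMod l.1) ^ r j,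
      ∏ j ∈ univ.filter (fun j => tt j = i2), (p j : ZMod l.1) ^ r j,
      hz i0, hz i1, hz i2, ?_, ?_, ?_⟩
    · rw [← hpβ]
      exact (fcd_Rval l.2 (hM l.1 l.2).1 (fun j => hF p hpF j l.1 l.2) i1).symm
    · exact (fcd_Rval l.2 (hM l.1 l.2).1 (fun j => hF p hpF j l.1 l.2) i2).symm
    · rw [ha0]
      exact hrel
  · intro b _ b' _ hbb
    funext l
    exact Units.ext (congrFun hbb l)

theorem fcd_prod3 (F : Fin 3 → ℝ) (i0 i1 i2 : Fin 3) (h01 : i0 ≠ i1)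
    (h02 : i0 ≠ i2) (h12 : i1 ≠ i2) : ∏ i, F i = F i0 * F i1 * F i2 := by
  have hu : ∀ i0 i1 i2 : Fin 3, i0 ≠ i1 → i0 ≠ i2 → i1 ≠ i2 →
      (univ : Finset (Fin 3)) = {i0, i1, i2} := by decide
  rw [hu i0 i1 i2 h01 h02 h12, Finset.prod_insert (by simp [h01, h02]),
    Finset.prod_insert (by simp [h12]), Finset.prod_singleton]
  ring

theorem fcd_others (i0 : Fin 3) : ∃ i1 i2 : Fin 3, i0 ≠ i1 ∧ i0 ≠ i2 ∧ i1 ≠ i2 := by
  revert i0
  decide

theorem fcd_inj {k : ℕ} {tt : Fin k → Fin 3} {i0 i1 i2 : Fin 3} (h01 : i0 ≠ i1)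
    (h02 : i0 ≠ i2) (h12 : i1 ≠ i2) {p p' : Fin k → ℕ} (h0 : fcdR tt i0 p = fcdR tt i0 p')
    (h1 : fcdR tt i1 p = fcdR tt i1 p') (h2 : fcdR tt i2 p = fcdR tt i2 p') : p = p' := by
  funext j
  rcases fcd_cover i0 i1 i2 (tt j) h01 h02 h12 with h | h | h
  · have := congrFun h0 j
    simpa only [fcdR, h, if_true] using this
  · have := congrFun h1 j
    simpa only [fcdR, h, if_true] using this
  · have := congrFun h2 j
    simpa only [fcdR, h, if_true] using this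

theorem fcd_num {Q0 Q1 Q2 X D G Φ E1 E2 B N : ℝ} (h0 : 0 ≤ Q0) (h1 : 0 ≤ Q1) (h2 : 0 ≤ Q2)
    (hX : Q0 * Q1 * Q2 ≤ X) (hD : 0 ≤ D) (hB : B = 2 * D * G * Φ) (hB0 : 0 ≤ B)
    (hE1 : E1 ≤ 2 * B * Q1) (hE2 : E2 ≤ 2 * B * Q2) (hE20 : 0 ≤ E2)
    (hN : N ≤ Q0 * (D * Real.sqrt (E1 * E2))) :
    N ≤ 4 * Φ * D ^ 2 * G * Real.sqrt (X * Q0) := by
  have e1 : E1 * E2 ≤ (2 * B) ^ 2 * (Q1 * Q2) := by
    calc E1 * E2 ≤ (2 * B * Q1) * (2 * B * Q2) :=
          mul_le_mul hE1 hE2 hE20 (by positivity)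
      _ = (2 * B) ^ 2 * (Q1 * Q2) := by ring
  have e2 : Real.sqrt (E1 * E2) ≤ 2 * B * Real.sqrt (Q1 * Q2) := by
    calc Real.sqrt (E1 * E2) ≤ Real.sqrt ((2 * B) ^ 2 * (Q1 * Q2)) := Real.sqrt_le_sqrt e1
      _ = 2 * B * Real.sqrt (Q1 * Q2) := by
          rw [Real.sqrt_mul (by positivity), Real.sqrt_sq (by positivity)]
  have e3 : Q0 * Real.sqrt (Q1 * Q2) ≤ Real.sqrt (X * Q0) := by
    calc Q0 * Real.sqrt (Q1 * Q2) = Real.sqrt (Q0 ^ 2) * Real.sqrt (Q1 * Q2) := by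
          rw [Real.sqrt_sq h0]
      _ = Real.sqrt (Q0 ^ 2 * (Q1 * Q2)) := (Real.sqrt_mul (sq_nonneg Q0) (Q1 * Q2)).symm
      _ ≤ Real.sqrt (X * Q0) := by
          refine Real.sqrt_le_sqrt ?_
          calc Q0 ^ 2 * (Q1 * Q2) = (Q0 * Q1 * Q2) * Q0 := by ring
            _ ≤ X * Q0 := mul_le_mul_of_nonneg_right hX h0
  calc N ≤ Q0 * (D * Real.sqrt (E1 * E2)) := hN
    _ ≤ Q0 * (D * (2 * B * Real.sqrt (Q1 * Q2))) := by gcongr
    _ = (2 * B * D) * (Q0 * Real.sqrt (Q1 * Q2)) := by ring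
    _ ≤ (2 * B * D) * Real.sqrt (X * Q0) := by gcongr
    _ = 4 * Φ * D ^ 2 * G * Real.sqrt (X * Q0) := by rw [hB]; ring

/-- number of tuples of primes with a fixed code -/
theorem fcd_thm (hEN : S_EN) (hMOM : S_MOM) (hRLC : S_RLC) (hCSB : S_CSB) : S_FCD := by
  classical
  intro k e M tt r P U J T i0 g Φ X he hM hg hΦ hJ0 hJ1 hU hgcd hX ht hT
  obtain ⟨i1, i2, h01, h02, h12⟩ := fcd_others i0
  have hs1 : ∀ l ∈ M, 1 ≤ (l - 1) / e := by
    intro l hl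
    obtain ⟨hp, hd⟩ := hM l hl
    have h1 : 0 < l - 1 := by have := hp.two_le; omega
    exact Nat.div_pos (Nat.le_of_dvd h1 hd) he
  have hD1 : (1 : ℝ) ≤ ∏ l ∈ M, (((l - 1) / e : ℕ) : ℝ) := by
    refine fcd_one_le_prod _ _ ?_
    intro l hl
    exact_mod_cast hs1 l hl
  have hPp : ∀ j ∈ J, (1 : ℝ) ≤ P j := by
    intro j hj
    have := (hJ1 j hj).1
    have h2 : (1 : ℕ) ≤ P j := by omega
    exact_mod_cast h2
  have hQ : ∀ i : Fin 3, (0 : ℝ) ≤ ∏ j ∈ J.filter (fun j => tt j = i), (P j : ℝ) := fun i =>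
    Finset.prod_nonneg (fun _ _ => Nat.cast_nonneg _)
  have hQ3 : (∏ j ∈ J.filter (fun j => tt j = i0), (P j : ℝ)) *
      (∏ j ∈ J.filter (fun j => tt j = i1), (P j : ℝ)) *
      (∏ j ∈ J.filter (fun j => tt j = i2), (P j : ℝ)) ≤ X := by
    rw [← fcd_prod3 (fun i => ∏ j ∈ J.filter (fun j => tt j = i), (P j : ℝ)) i0 i1 i2 h01 h02 h12,
      Finset.prod_fiberwise J tt (fun j => (P j : ℝ))]
    exact hX
  have hgM : (1 : ℝ) ≤ g ^ M.card := one_le_pow₀ hg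
  -- the two energies
  have hE := fcd_energy (tt := tt) hEN hMOM he hM hg hΦ hJ0 hJ1 hU hgcd hX ht
  set A : Fin 3 → Finset (Fin k → ℕ) := fun i =>
    Fintype.piFinset (fun j => if tt j = i then U j else {1}) with hAdef
  set En : Fin 3 → ℕ := fun i => (((A i) ×ˢ (A i)).filter
    (fun w => fcdV M e r w.1 = fcdV M e r w.2)).card with hEndef
  have hEn : ∀ i, (En i : ℝ) ≤ 2 * (2 * (∏ l ∈ M, (((l - 1) / e : ℕ) : ℝ)) * g ^ M.card * Φ) *
        ∏ j ∈ J.filter (fun j => tt j = i), (P j : ℝ) := by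
    intro i
    refine le_trans (Nat.cast_le.2 (Finset.card_le_card ?_)) (hE i)
    intro w hw
    rw [Finset.mem_filter] at hw ⊢
    exact hw
  have hRA : ∀ p ∈ T, ∀ i, fcdR tt i p ∈ A i := by
    intro p hp i
    refine Fintype.mem_piFinset.2 ?_
    intro j
    by_cases h : tt j = i
    · simp only [fcdR, h, if_true]
      exact (hT p hp).1 j
    · simp [fcdR, h]
  -- one fibre
  have hfib : ∀ a ∈ T.image (fcdR tt i0), ((T.filter (fun p => fcdR tt i0 p = a)).card : ℝ) ≤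
      (∏ l ∈ M, (((l - 1) / e : ℕ) : ℝ)) * Real.sqrt ((En i1 : ℝ) * (En i2 : ℝ)) := by
    intro a _
    set F := T.filter (fun p => fcdR tt i0 p = a) with hF
    have hFT : ∀ p ∈ F, p ∈ T := fun p hp => (Finset.mem_filter.1 hp).1
    have hFa : ∀ p ∈ F, fcdR tt i0 p = a := fun p hp => (Finset.mem_filter.1 hp).2
    have hFd : ∀ p ∈ F, ∀ j, ∀ l ∈ M, ¬ l ∣ p j := fun p hp j l hl =>
      hU j _ ((hT p (hFT p hp)).1 j) l hl
    have hFx := fun p hp => (hT p (hFT p hp)).2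
    set W := F.image (fun p => (fcdR tt i1 p, fcdR tt i2 p)) with hW
    have hFW : F.card = W.card := by
      rw [hW, Finset.card_image_of_injOn]
      intro p hp p' hp' hpp
      have hpp' := Prod.ext_iff.1 hpp
      exact fcd_inj h01 h02 h12 ((hFa p hp).trans (hFa p' hp').symm) hpp'.1 hpp'.2
    have hc := hCSB (Fin k → ℕ) (fcdG M) (A i1) (A i2) (fcdV M e r) (fcdV M e r) W
      (∏ l ∈ M, (l - 1) / e) ?_ ?_ ?_
    · rw [hFW]
      refine hc.trans (le_of_eq ?_)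
      push_cast
      rfl
    · intro w hw
      obtain ⟨p, hp, rfl⟩ := Finset.mem_image.1 hw
      exact ⟨hRA p (hFT p hp) i1, hRA p (hFT p hp) i2⟩
    · intro b _
      refine (Finset.card_le_card ?_).trans
        (fcd_img hRLC h01 h02 h12 he hM hFd hFx a hFa (fcdV M e r b))
      intro y hy
      obtain ⟨w, hw, rfl⟩ := Finset.mem_image.1 hy
      obtain ⟨hw1, hw2⟩ := Finset.mem_filter.1 hw
      obtain ⟨p, hp, rfl⟩ := Finset.mem_image.1 hw1
      exact Finset.mem_image.2 ⟨p, Finset.mem_filter.2 ⟨hp, hw2⟩, rfl⟩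
    · intro b _
      refine (Finset.card_le_card ?_).trans
        (fcd_img hRLC h02 h01 h12.symm he hM hFd hFx a hFa (fcdV M e r b))
      intro y hy
      obtain ⟨w, hw, rfl⟩ := Finset.mem_image.1 hy
      obtain ⟨hw1, hw2⟩ := Finset.mem_filter.1 hw
      obtain ⟨p, hp, rfl⟩ := Finset.mem_image.1 hw1
      exact Finset.mem_image.2 ⟨p, Finset.mem_filter.2 ⟨hp, hw2⟩, rfl⟩
  -- number of fibres
  have himg : ((T.image (fcdR tt i0)).card : ℝ) ≤
      ∏ j ∈ J.filter (fun j => tt j = i0), (P j : ℝ) := by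
    have h1 : (T.image (fcdR tt i0)).card ≤ (A i0).card := by
      refine Finset.card_le_card ?_
      intro y hy
      obtain ⟨p, hp, rfl⟩ := Finset.mem_image.1 hy
      exact hRA p hp i0
    have h2 : ((A i0).card : ℝ) ≤ ∏ j ∈ J.filter (fun j => tt j = i0), (P j : ℝ) := by
      have h3 : ∏ j ∈ J.filter (fun j => tt j = i0), (P j : ℝ) =
          ∏ j, if j ∈ J ∧ tt j = i0 then (P j : ℝ) else 1 := by
        rw [← Finset.prod_filter]
        refine Finset.prod_congr ?_ (fun _ _ => rfl)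
        ext j
        simp
      rw [h3, hAdef]
      simp only [Fintype.card_piFinset]
      push_cast
      refine Finset.prod_le_prod (fun _ _ => Nat.cast_nonneg _) ?_
      intro j _
      by_cases h : tt j = i0
      · by_cases hj : j ∈ J
        · simp only [h, if_true, hj, and_self]
          have : U j ⊆ Finset.Ico (P j) (2 * P j) := by
            intro q hq
            have := ((hJ1 j hj).2 q hq).2
            exact Finset.mem_Ico.2 this
          have h3 := Finset.card_le_card this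
          rw [Nat.card_Ico] at h3
          have h4 : (U j).card ≤ P j := by omega
          exact_mod_cast h4
        · simp only [h, if_true, hj, false_and, if_false]
          exact_mod_cast hJ0 j hj
      · simp [h]
    exact le_trans (Nat.cast_le.2 h1) h2
  have hTc : (T.card : ℝ) ≤ (∏ j ∈ J.filter (fun j => tt j = i0), (P j : ℝ)) *
      ((∏ l ∈ M, (((l - 1) / e : ℕ) : ℝ)) * Real.sqrt ((En i1 : ℝ) * (En i2 : ℝ))) := by
    have h1 : (T.card : ℝ) = ∑ a ∈ T.image (fcdR tt i0),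
        ((T.filter (fun p => fcdR tt i0 p = a)).card : ℝ) := by
      rw [Finset.card_eq_sum_card_image (fcdR tt i0) T]
      push_cast
      rfl
    rw [h1]
    refine (Finset.sum_le_sum hfib).trans ?_
    rw [Finset.sum_const, nsmul_eq_mul]
    refine mul_le_mul_of_nonneg_right himg ?_
    have : (0 : ℝ) ≤ ∏ l ∈ M, (((l - 1) / e : ℕ) : ℝ) := by linarith
    positivity
  exact fcd_num (hQ i0) (hQ i1) (hQ i2) hQ3 (by linarith) rfl
    (by have : (0 : ℝ) ≤ ∏ l ∈ M, (((l - 1) / e : ℕ) : ℝ) := by linarith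
        positivity) (hEn i1) (hEn i2) (Nat.cast_nonneg _) hTc

end Pool.FEW
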